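import Pool.Agent.Run7.h515.PW.Sound

set_option autoImplicit false

/-!
Checking of certificates for the finite game on a block of four directions.
-/

namespace Pool.Agent.Run7.h515.PW

open Finset

/-- A state of the finite game with a strategy: `g` says whether it is a state after a move in the
block, `A`, `B`, `L` are the masks, `m` is the number of further plays, `r` the number of further
moves in the block; `c` and `d` are the replies for the sets of improving directions `0, …, 15`
(for `g = false`: `c` for completions and `d` otherwise). -/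
structure Ent where
  g : Bool
  A : ℕ
  B : ℕ
  L : ℕ
  m : ℕ
  r : ℕ
  c : List ℕ
  d : List ℕ

/-- The claim for an entry. -/
def Claim (R U : Finset ℕ) (T : ℕ) (g : Bool) (A B L m r : ℕ) : Prop :=
  if g = true then GS R U T A B L m r else FS R U T A L m r

/-- The state is at most as hard as the entry. -/
def fin (g : Bool) (m : ℕ) (e : Ent) (A B L : ℕ) : Bool :=
  (e.g == g) && decide (e.m ≤ m) && (A &&& e.A == A) && (!g || (B &&& e.B == B)) &&
    (List.range 16).all fun c => !(e.L.testBit c) || L.testBit c || ((A >>> (16 * c)) % 65536 == 0)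

/-- The state is, up to a permutation of the directions, at most as hard as the entry. -/
def dom (g : Bool) (m : ℕ) (e : Ent) : ℕ → ℕ → ℕ → ℕ → ℕ → Bool
  | 0, _, A, B, L => fin g m e A B L
  | f + 1, p, A, B, L => if p % 4 = 0 then fin g m e A B L else
      dom g m e f (p / 4) (swA (p % 4 - 1) A) (swA (p % 4 - 1) B) (swL (p % 4 - 1) L)

/-- The default entry. -/
def dflt : Ent := ⟨true, 0, 0, 1, 0, 0, [], []⟩

/-- Check a jump in direction `j` to the entry `idx` with permutation `p`. -/
def chkJump (tab : List Ent) (i r m A B L O j : ℕ) (lk : Bool) (idx p : ℕ) : Bool :=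
  decide (j < 4) && O.testBit j && decide (idx < i) && decide ((tab.getD idx dflt).r + 1 ≤ r) &&
    (if lk = true then
      L.testBit (2 ^ j) && dom true m (tab.getD idx dflt) 6 p (shA j A) (shA j B) (shL j L)
    else decide (1 ≤ m) && dom true (m - 1) (tab.getD idx dflt) 6 p (shA j A) (shA j B) 65535)

/-- Check that the play may stay in the cell. -/
def chkStay (tab : List Ent) (i r m A L idx p : ℕ) : Bool :=
  decide (idx < i) && decide ((tab.getD idx dflt).r ≤ r) &&
    dom false m (tab.getD idx dflt) 6 p A 0 L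

/-- Check a reply. -/
def chkRe (tab : List Ent) (i r m A B L O code : ℕ) (st : Bool) : Bool :=
  if code % 16 = 0 then
    st && chkStay tab i r m A (L &&& mK.getD O 0) (code / 65536) (code / 16 % 4096)
  else if code % 16 ≤ 4 then
    chkJump tab i r m A B L O (code % 16 - 1) true (code / 65536) (code / 16 % 4096)
  else chkJump tab i r m A B L O (code % 16 - 5) false (code / 65536) (code / 16 % 4096)

/-- Check an entry. -/
def chkEnt (tab : List Ent) (i : ℕ) (e : Ent) : Bool :=
  if e.g = true then
    (List.range 16).all fun O => !(e.B.testBit O) ||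
      chkRe tab i e.r e.m e.A (e.B &&& mC.getD O 0) e.L O (e.c.getD O 0) true
  else
    e.L.testBit 0 && (List.range 16).all fun O => !(e.A.testBit O) ||
      ((O == 0 || chkRe tab i e.r e.m (e.A &&& mC.getD O 0) (e.A &&& mC.getD O 0) e.L O
          (e.c.getD O 0) false) &&
        ((e.L &&& mK.getD O 0 == e.L) ||
          chkRe tab i e.r e.m e.A (e.A &&& mC.getD O 0) e.L O (e.d.getD O 0) true))

/-- Check the entries `a, …, b - 1` of the table. -/
def chkRange (tab : List Ent) (a b : ℕ) : Bool :=
  (List.range (b - a)).all fun i => chkEnt tab (a + i) (tab.getD (a + i) dflt)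

section

variable {R U : Finset ℕ} {T : ℕ}

theorem emb_swap {π : Fin 4 → ℕ} (h : Emb R U π) (a : Fin 3) :
    Emb R U fun i => π (Equiv.swap a.castSucc a.succ i) := by
  refine ⟨h.inj.comp (Equiv.swap a.castSucc a.succ).injective, fun i => h.notin _, fun d => ?_⟩
  rw [h.mem d]
  refine or_congr_right ⟨?_, ?_⟩
  · rintro ⟨i, rfl⟩
    exact ⟨Equiv.swap a.castSucc a.succ i, by simp⟩
  · rintro ⟨i, rfl⟩
    exact ⟨_, rfl⟩

theorem rel_swap (π : Fin 4 → ℕ) (a : Fin 3) (v y : V) :
    rel (fun i => π (Equiv.swap a.castSucc a.succ i)) v y = tr a (rel π v y) :=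
  code_swap (fun i => v (π i) != y (π i)) a

theorem off_swap (π : Fin 4 → ℕ) (a : Fin 3) (o : Finset ℕ) :
    off (fun i => π (Equiv.swap a.castSucc a.succ i)) o = tr a (off π o) :=
  code_swap (fun i => decide (π i ∈ o)) a

theorem CA.swap {π : Fin 4 → ℕ} {H : Hist} {v : V} {A : ℕ} (h : CA U π H v A) (a : Fin 3) :
    CA U (fun i => π (Equiv.swap a.castSucc a.succ i)) H v (swA a A) := by
  intro y o hy ho hl
  rw [rel_swap, off_swap, swA_testBit a.2 (rel_lt _ _ _) (off_lt _ _)]
  exact h y o hy ho hl

theorem CB.swap {π : Fin 4 → ℕ} {H : Hist} {v : V} {A : ℕ} (h : CB U π H v A) (a : Fin 3) :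
    CB U (fun i => π (Equiv.swap a.castSucc a.succ i)) H v (swA a A) := by
  intro y o hy ho hl
  rw [rel_swap, off_swap, swA_testBit a.2 (rel_lt _ _ _) (off_lt _ _)]
  exact h y o (fun d hd => hy d fun i => hd _) ho hl

theorem CL.swap {π : Fin 4 → ℕ} {H E : Hist} {v : V} {L : ℕ} (h : CL R U π H E v L) (a : Fin 3) :
    CL R U (fun i => π (Equiv.swap a.castSucc a.succ i)) H E v (swL a L) := by
  intro y o hy hL ho hl
  rw [rel_swap, swL_testBit a.2 (rel_lt _ _ _)] at hL
  exact h y o hy hL ho hl

theorem claim_swap {g : Bool} {A B L m r : ℕ} (a : Fin 3)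
    (h : Claim R U T g (swA a A) (swA a B) (swL a L) m r) : Claim R U T g A B L m r := by
  unfold Claim at h ⊢
  cases g
  · simp only [Bool.false_eq_true, if_false] at h ⊢
    intro π hπ H E v t hE hA hL hW
    exact h _ (emb_swap hπ a) H E v t hE (hA.swap a) (hL.swap a) hW
  · simp only [if_true] at h ⊢
    intro π hπ H E v t hE hA hB hL hW
    exact h _ (emb_swap hπ a) H E v t hE (hA.swap a) (hB.swap a) (hL.swap a) hW

theorem fin_sound {g : Bool} {m : ℕ} {e : Ent} {A B L : ℕ} (h : fin g m e A B L = true)
    (he : Claim R U T e.g e.A e.B e.L e.m e.r) : Claim R U T g A B L m e.r := by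
  unfold fin at h
  simp only [Bool.and_eq_true, beq_iff_eq, decide_eq_true_eq, List.all_eq_true, List.mem_range,
    Bool.or_eq_true, Bool.not_eq_true'] at h
  obtain ⟨⟨⟨⟨hg, hm⟩, hA'⟩, hB'⟩, hL'⟩ := h
  have hsub : ∀ {X Y : ℕ} (i : ℕ), X &&& Y = X → X.testBit i = true → Y.testBit i = true := by
    intro X Y i h1 h2
    rw [← h1, Nat.testBit_and] at h2
    exact (Bool.and_eq_true_iff.1 h2).2
  have hCA : ∀ {π : Fin 4 → ℕ} {H : Hist} {v : V}, CA U π H v A → CA U π H v e.A :=
    fun h y o hy ho hl => hsub _ hA' (h y o hy ho hl)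
  have hCL : ∀ {π : Fin 4 → ℕ} {H E : Hist} {v : V}, CA U π H v A → CL R U π H E v L →
      CL R U π H E v e.L := by
    intro π H E v hA hL y o hy hb ho hl
    rcases hL' (rel π v y) (rel_lt _ _ _) with (h1 | h1) | h1
    · rw [h1] at hb
      exact absurd hb (by simp)
    · exact hL y o hy h1 ho hl
    · exfalso
      have h2 := hA y o hy ho hl
      have h3 : ((A >>> (16 * rel π v y)) % 65536).testBit (off π o) = true := by
        have h4 : (65536 : ℕ) = 2 ^ 16 := by norm_num
        rw [h4, Nat.testBit_mod_two_pow, Nat.testBit_shiftRight, h2]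
        simp [off_lt π o]
      rw [h1] at h3
      simp at h3
  have hT : ∀ t, t + e.m * T + e.r ≤ t + m * T + e.r := by
    intro t
    have := Nat.mul_le_mul_right T hm
    omega
  unfold Claim at he ⊢
  rw [hg] at he
  cases g
  · simp only [Bool.false_eq_true, if_false] at he ⊢
    intro π hπ H E v t hE hA hL hW
    exact (he π hπ H E v t hE (hCA hA) (hCL hA hL) hW).mono (hT t)
  · simp only [if_true] at he ⊢
    intro π hπ H E v t hE hA hB hL hW
    refine (he π hπ H E v t hE (hCA hA) ?_ (hCL hA hL) hW).mono (hT t)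
    intro y o hy ho hl
    rcases hB' with hB' | hB'
    · exact absurd hB' (by simp)
    · exact hsub _ hB' (hB y o hy ho hl)

theorem dom_sound {g : Bool} {m : ℕ} {e : Ent} (f p : ℕ) {A B L : ℕ}
    (h : dom g m e f p A B L = true) (he : Claim R U T e.g e.A e.B e.L e.m e.r) :
    Claim R U T g A B L m e.r := by
  induction f generalizing p A B L with
  | zero => exact fin_sound h he
  | succ f ih =>
    rw [dom] at h
    split_ifs at h with h1
    · exact fin_sound h he
    · have h2 : p % 4 - 1 < 3 := by omega
      exact claim_swap ⟨p % 4 - 1, h2⟩ (ih _ h)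

theorem chkJump_sound {tab : List Ent} {i r m A B L O j : ℕ} {lk : Bool} {idx p : ℕ}
    (h : chkJump tab i r m A B L O j lk idx p = true)
    (htab : ∀ k < i, Claim R U T (tab.getD k dflt).g (tab.getD k dflt).A (tab.getD k dflt).B
      (tab.getD k dflt).L (tab.getD k dflt).m (tab.getD k dflt).r) :
    JS R U T A B L m r O := by
  unfold chkJump at h
  simp only [Bool.and_eq_true, decide_eq_true_eq] at h
  obtain ⟨⟨⟨⟨hj, hO⟩, hi⟩, hr⟩, h⟩ := h
  refine ⟨⟨j, hj⟩, hO, (tab.getD idx dflt).r, hr, ?_⟩
  cases lk
  · simp only [Bool.false_eq_true, if_false, Bool.and_eq_true, decide_eq_true_eq] at h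
    right
    refine ⟨m - 1, by omega, ?_⟩
    have := dom_sound (R := R) (U := U) (T := T) 6 p h.2 (htab idx hi)
    unfold Claim at this
    simpa using this
  · simp only [if_true, Bool.and_eq_true] at h
    left
    refine ⟨h.1, ?_⟩
    have := dom_sound (R := R) (U := U) (T := T) 6 p h.2 (htab idx hi)
    unfold Claim at this
    simpa using this

theorem chkStay_sound {tab : List Ent} {i r m A L idx p : ℕ}
    (h : chkStay tab i r m A L idx p = true)
    (htab : ∀ k < i, Claim R U T (tab.getD k dflt).g (tab.getD k dflt).A (tab.getD k dflt).B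
      (tab.getD k dflt).L (tab.getD k dflt).m (tab.getD k dflt).r) :
    ∃ r' ≤ r, FS R U T A L m r' := by
  unfold chkStay at h
  simp only [Bool.and_eq_true, decide_eq_true_eq] at h
  obtain ⟨⟨hi, hr⟩, h⟩ := h
  refine ⟨_, hr, ?_⟩
  have := dom_sound (R := R) (U := U) (T := T) 6 p h (htab idx hi)
  unfold Claim at this
  simpa using this

theorem chkRe_sound {tab : List Ent} {i r m A B L O code : ℕ} {st : Bool}
    (h : chkRe tab i r m A B L O code st = true)
    (htab : ∀ k < i, Claim R U T (tab.getD k dflt).g (tab.getD k dflt).A (tab.getD k dflt).B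
      (tab.getD k dflt).L (tab.getD k dflt).m (tab.getD k dflt).r) :
    (st = true ∧ ∃ r' ≤ r, FS R U T A (L &&& mK.getD O 0) m r') ∨ JS R U T A B L m r O := by
  unfold chkRe at h
  split_ifs at h with h1 h2
  · rw [Bool.and_eq_true] at h
    exact Or.inl ⟨h.1, chkStay_sound h.2 htab⟩
  · exact Or.inr (chkJump_sound h htab)
  · exact Or.inr (chkJump_sound h htab)

theorem chkEnt_sound (hT : ∀ v, Win R T [] v) {tab : List Ent} {i : ℕ} {e : Ent}
    (h : chkEnt tab i e = true)
    (htab : ∀ k < i, Claim R U T (tab.getD k dflt).g (tab.getD k dflt).A (tab.getD k dflt).B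
      (tab.getD k dflt).L (tab.getD k dflt).m (tab.getD k dflt).r) :
    Claim R U T e.g e.A e.B e.L e.m e.r := by
  unfold chkEnt at h
  unfold Claim
  split_ifs at h with hg
  · rw [if_pos hg]
    simp only [List.all_eq_true, List.mem_range, Bool.or_eq_true, Bool.not_eq_true'] at h
    refine soundG hT fun O hO hb => ?_
    rcases h O hO with h1 | h1
    · rw [h1] at hb
      exact absurd hb (by simp)
    · rcases chkRe_sound h1 htab with h2 | h2
      · exact Or.inl h2.2
      · exact Or.inr h2
  · rw [if_neg hg]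
    simp only [List.all_eq_true, List.mem_range, Bool.or_eq_true, Bool.not_eq_true',
      Bool.and_eq_true, beq_iff_eq] at h
    obtain ⟨h0, h⟩ := h
    refine soundF hT h0 (fun O hO hne hb => ?_) (fun O hO hb => ?_)
    · rcases h O hO with h1 | ⟨h1, _⟩
      · rw [h1] at hb
        exact absurd hb (by simp)
      · rcases h1 with h1 | h1
        · exact absurd h1 hne
        · rcases chkRe_sound h1 htab with h2 | h2
          · exact absurd h2.1 (by simp)
          · exact h2
    · rcases h O hO with h1 | ⟨_, h1⟩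
      · rw [h1] at hb
        exact absurd hb (by simp)
      · rcases h1 with h1 | h1
        · exact Or.inl h1
        · rcases chkRe_sound h1 htab with h2 | h2
          · exact Or.inr (Or.inl h2.2)
          · exact Or.inr (Or.inr h2)

theorem chkAll_sound (hT : ∀ v, Win R T [] v) {tab : List Ent} {N : ℕ}
    (h : ∀ i < N, chkEnt tab i (tab.getD i dflt) = true) :
    ∀ i < N, Claim R U T (tab.getD i dflt).g (tab.getD i dflt).A (tab.getD i dflt).B
      (tab.getD i dflt).L (tab.getD i dflt).m (tab.getD i dflt).r := by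
  intro i
  induction i using Nat.strong_induction_on with
  | _ i ih =>
    intro hi
    exact chkEnt_sound hT (h i hi) fun k hk => ih k hk (by omega)

end

end Pool.Agent.Run7.h515.PW
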