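import Mathlib

set_option autoImplicit false

/-!
The game of the pivoting algorithm against an adversary, on the cube with coordinates `ℕ`.
-/

namespace Pool.Agent.Run7.h515.PW

open Finset

/-- The vertices. -/
abbrev V := ℕ → Bool

/-- Histories: the visited vertices with their sets of improving directions. -/
abbrev Hist := List (V × Finset ℕ)

/-- The neighbour of `x` in direction `i`. -/
def fl (x : V) (i : ℕ) : V := Function.update x i (!(x i))

theorem fl_same (x : V) (i : ℕ) : fl x i i = !(x i) := by simp [fl]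

theorem fl_ne (x : V) {i j : ℕ} (h : j ≠ i) : fl x i j = x j := by simp [fl, h]

/-- The set `o` is a possible set of improving directions of the vertex `v`, visited after the
vertices in the history `H`. -/
def Legal (H : Hist) (v : V) (o : Finset ℕ) : Prop :=
  ∀ p ∈ H, ∃ d ∈ p.2, d ∉ o ∧ p.1 d ≠ v d

theorem Legal.tail {H : Hist} {p : V × Finset ℕ} {v : V} {o : Finset ℕ}
    (h : Legal (p :: H) v o) : Legal H v o := fun q hq => h q (List.mem_cons_of_mem _ hq)

theorem Legal.head {H : Hist} {p : V × Finset ℕ} {v : V} {o : Finset ℕ}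
    (h : Legal (p :: H) v o) : ∃ d ∈ p.2, d ∉ o ∧ p.1 d ≠ v d := h p (List.mem_cons_self ..)

/-- The algorithm, which arrives at the vertex `v` after the history `H`, can make sure that it
needs at most `t` further moves if all sets of improving directions are subsets of `U`. -/
def Win (U : Finset ℕ) : ℕ → Hist → V → Prop
  | 0, H, v => ∀ o ⊆ U, Legal H v o → o = ∅
  | t + 1, H, v => ∀ o ⊆ U, Legal H v o → o = ∅ ∨ ∃ i ∈ o, Win U t ((v, o) :: H) (fl v i)

theorem Win.mono_hist {R : Finset ℕ} {t : ℕ} {E E' : Hist} {v v' : V} (h : Win R t E v)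
    (hE : ∀ (y y' : V) (o : Finset ℕ), (∀ d ∈ R, y d = y' d) → o ⊆ R → Legal E' y' o →
      Legal E y o) (hv : ∀ d ∈ R, v d = v' d) : Win R t E' v' := by
  induction t generalizing E E' v v' with
  | zero =>
    intro o ho hl
    exact h o ho (hE v v' o hv ho hl)
  | succ t ih =>
    intro o ho hl
    rcases h o ho (hE v v' o hv ho hl) with h1 | ⟨i, hi, h1⟩
    · exact Or.inl h1
    · refine Or.inr ⟨i, hi, ih h1 ?_ ?_⟩
      · intro y y' o' hy ho' hl' p hp
        rcases List.mem_cons.1 hp with rfl | hp
        · obtain ⟨d, hd, hd1, hd2⟩ := hl'.head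
          refine ⟨d, hd, hd1, ?_⟩
          change v d ≠ y d
          rw [hv d (ho hd), hy d (ho hd)]
          exact hd2
        · exact hE y y' o' hy ho' hl'.tail p hp
      · intro d hd
        by_cases hdi : d = i
        · subst hdi; rw [fl_same, fl_same, hv d hd]
        · rw [fl_ne _ hdi, fl_ne _ hdi, hv d hd]

/-- The play in the directions `R` does not depend on the other coordinates. -/
theorem Win.transl {R : Finset ℕ} {t : ℕ} {E : Hist} {v v' : V} (h : Win R t E v)
    (hE : ∀ p ∈ E, p.2 ⊆ R) (hv : ∀ d ∈ R, v d = v' d) : Win R t E v' := by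
  refine h.mono_hist ?_ hv
  intro y y' o hy ho hl p hp
  obtain ⟨d, hd, hd1, hd2⟩ := hl p hp
  refine ⟨d, hd, hd1, ?_⟩
  rw [hy d (hE p hp hd)]
  exact hd2

theorem Win.succ {U : Finset ℕ} {t : ℕ} {H : Hist} {v : V} (h : Win U t H v) :
    Win U (t + 1) H v := by
  induction t generalizing H v with
  | zero =>
    intro o ho hl
    exact Or.inl (h o ho hl)
  | succ t ih =>
    intro o ho hl
    rcases h o ho hl with h1 | ⟨i, hi, h1⟩
    · exact Or.inl h1
    · exact Or.inr ⟨i, hi, ih h1⟩

theorem Win.mono {U : Finset ℕ} {t t' : ℕ} {H : Hist} {v : V} (h : Win U t H v) (ht : t ≤ t') :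
    Win U t' H v := by
  induction ht with
  | refl => exact h
  | step _ ih => exact ih.succ

theorem Win.mono_set {U U' : Finset ℕ} {t : ℕ} {H : Hist} {v : V} (h : Win U t H v)
    (hU : U' ⊆ U) : Win U' t H v := by
  induction t generalizing H v with
  | zero => exact fun o ho hl => h o (ho.trans hU) hl
  | succ t ih =>
    intro o ho hl
    rcases h o (ho.trans hU) hl with h1 | ⟨i, hi, h1⟩
    · exact Or.inl h1
    · exact Or.inr ⟨i, hi, ih h1⟩

/-- What `Win` says about a given set of improving directions. -/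
theorem Win.step {U : Finset ℕ} {t : ℕ} {H : Hist} {v : V} (h : Win U t H v) {o : Finset ℕ}
    (ho : o ⊆ U) (hl : Legal H v o) (hne : o ≠ ∅) :
    ∃ i ∈ o, ∃ t', t = t' + 1 ∧ Win U t' ((v, o) :: H) (fl v i) := by
  cases t with
  | zero => exact absurd (h o ho hl) hne
  | succ t =>
    rcases h o ho hl with h1 | ⟨i, hi, h1⟩
    · exact absurd h1 hne
    · exact ⟨i, hi, t, rfl, h1⟩

end Pool.Agent.Run7.h515.PW
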