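import Pool.Agent.Run7.h515.PV.Count
import Pool.Agent.Run7.h515.PW.Game

set_option autoImplicit false

/-!
Objective functions on the cube with one local maximum on every face: their sets of improving
directions are legal in the game. The theorem of Szabó and Welzl is copied from the starting file
`Pool/Agent/R892/MS/Uso.lean`.
-/

namespace Pool.Agent.Run7.h515.PW

open Finset
open Pool.Agent.Run7.h515.PV (flip flip_same flip_ne improving le_of_kill)

variable {n : ℕ}

/-- switch the directions in `T` -/
def sw (x : Fin n → Bool) (T : Finset (Fin n)) : Fin n → Bool := fun i => if i ∈ T then !x i else x i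

theorem sw_mem {x : Fin n → Bool} {T : Finset (Fin n)} {i : Fin n} (h : i ∈ T) : sw x T i = !x i := by
  simp [sw, h]

theorem sw_not_mem {x : Fin n → Bool} {T : Finset (Fin n)} {i : Fin n} (h : i ∉ T) :
    sw x T i = x i := by
  simp [sw, h]

theorem sw_flip {x : Fin n → Bool} {T : Finset (Fin n)} {i : Fin n} (h : i ∈ T) :
    flip (sw x T) i = sw x (T.erase i) := by
  funext j
  by_cases hj : j = i
  · subst hj
    rw [flip_same, sw_mem h, sw_not_mem (by simp), Bool.not_not]
  · rw [flip_ne _ hj]
    by_cases hT : j ∈ T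
    · rw [sw_mem hT, sw_mem (mem_erase.2 ⟨hj, hT⟩)]
    · rw [sw_not_mem hT, sw_not_mem (fun h => hT (mem_of_mem_erase h))]

/-- the two ends of an edge see it differently -/
def Edge (s : (Fin n → Bool) → Finset (Fin n)) : Prop := ∀ x i, i ∈ s x ↔ i ∉ s (flip x i)

/-- one sink on every face -/
def US (s : (Fin n → Bool) → Finset (Fin n)) : Prop :=
  ∀ (F : Finset (Fin n)) (x : Fin n → Bool), ∃! y : Fin n → Bool,
    (∀ i, i ∉ F → y i = x i) ∧ ∀ i ∈ F, i ∉ s y

/-- reverse all edges of direction `j` -/
def tog (s : (Fin n → Bool) → Finset (Fin n)) (j : Fin n) : (Fin n → Bool) → Finset (Fin n) :=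
  fun x => symmDiff (s x) {j}

theorem mem_tog_self {s : (Fin n → Bool) → Finset (Fin n)} {j : Fin n} {x : Fin n → Bool} :
    j ∈ tog s j x ↔ j ∉ s x := by
  simp [tog, mem_symmDiff]

theorem mem_tog_ne {s : (Fin n → Bool) → Finset (Fin n)} {i j : Fin n} (h : i ≠ j)
    {x : Fin n → Bool} : i ∈ tog s j x ↔ i ∈ s x := by
  simp [tog, mem_symmDiff, h]

theorem tog_edge {s : (Fin n → Bool) → Finset (Fin n)} (hE : Edge s) (j : Fin n) :
    Edge (tog s j) := by
  intro x i
  by_cases h : i = j
  · subst h
    rw [mem_tog_self, mem_tog_self, hE x i, not_not]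
  · rw [mem_tog_ne h, mem_tog_ne h, hE x i]

theorem tog_us {s : (Fin n → Bool) → Finset (Fin n)} (hU : US s) (j : Fin n) :
    US (tog s j) := by
  intro F x
  by_cases hj : j ∈ F
  swap
  · obtain ⟨y, ⟨h1, h2⟩, h3⟩ := hU F x
    refine ⟨y, ⟨h1, fun i hi => ?_⟩, fun z hz => h3 z ⟨hz.1, fun i hi => ?_⟩⟩
    · rw [mem_tog_ne (by rintro rfl; exact hj hi)]
      exact h2 i hi
    · have := hz.2 i hi
      rwa [mem_tog_ne (by rintro rfl; exact hj hi)] at this
  obtain ⟨y, ⟨hy1, hy2⟩, hy3⟩ := hU F x
  -- the other facet
  obtain ⟨z, ⟨hz1, hz2⟩, hz3⟩ := hU (F.erase j) (flip y j)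
  have hzj : z j = !y j := by
    rw [hz1 j (by simp), flip_same]
  have hzx : ∀ i, i ∉ F → z i = x i := by
    intro i hi
    have hij : i ≠ j := by rintro rfl; exact hi hj
    rw [hz1 i (fun h => hi (mem_of_mem_erase h)), flip_ne _ hij, hy1 i hi]
  have hjz : j ∈ s z := by
    by_contra h
    have : z = y := by
      apply hy3
      refine ⟨hzx, fun i hi => ?_⟩
      by_cases hij : i = j
      · subst hij; exact h
      · exact hz2 i (mem_erase.2 ⟨hij, hi⟩)
    rw [this] at hzj
    simp at hzj
  refine ⟨z, ⟨hzx, fun i hi => ?_⟩, ?_⟩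
  · by_cases hij : i = j
    · subst hij
      rw [mem_tog_self, not_not]
      exact hjz
    · rw [mem_tog_ne hij]
      exact hz2 i (mem_erase.2 ⟨hij, hi⟩)
  · rintro w ⟨hw1, hw2⟩
    have hwj : j ∈ s w := by
      have := hw2 j hj
      rwa [mem_tog_self, not_not] at this
    have hws : ∀ i ∈ F.erase j, i ∉ s w := by
      intro i hi
      have := hw2 i (mem_of_mem_erase hi)
      rwa [mem_tog_ne (mem_erase.1 hi).1] at this
    by_cases hwy : w j = y j
    · -- then `w` is the sink of the facet of `y`
      exfalso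
      have : w = y := by
        obtain ⟨u, -, hu⟩ := hU (F.erase j) y
        have e1 : w = u := hu w ⟨fun i hi => by
          by_cases hij : i = j
          · rw [hij, hwy]
          · have hiF : i ∉ F := fun h => hi (mem_erase.2 ⟨hij, h⟩)
            rw [hw1 i hiF, hy1 i hiF], hws⟩
        have e2 : y = u := hu y ⟨fun i _ => rfl, fun i hi => hy2 i (mem_of_mem_erase hi)⟩
        rw [e1, e2]
      rw [this] at hwj
      exact hy2 j hj hwj
    · apply hz3
      refine ⟨fun i hi => ?_, hws⟩
      by_cases hij : i = j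
      · rw [hij, flip_same]
        exact Bool.eq_not_of_ne hwy
      · have hiF : i ∉ F := fun h => hi (mem_erase.2 ⟨hij, h⟩)
        rw [flip_ne _ hij, hw1 i hiF, hy1 i hiF]

/-- **Szabó and Welzl.** Two vertices differ in a direction in which their outmaps differ. -/
theorem us_pair {s : (Fin n → Bool) → Finset (Fin n)} (hU : US s) {x y : Fin n → Bool}
    (h : ∀ i, x i ≠ y i → (i ∈ s x ↔ i ∈ s y)) : x = y := by
  -- reverse the directions in which both are outgoing
  have key : ∀ (L : Finset (Fin n)) (s : (Fin n → Bool) → Finset (Fin n)), US s →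
      (∀ i, x i ≠ y i → (i ∈ s x ↔ i ∈ s y)) → (∀ i, x i ≠ y i → i ∈ s x → i ∈ L) → x = y := by
    intro L
    induction L using Finset.induction_on with
    | empty =>
      intro s hU h hL
      obtain ⟨u, -, hu⟩ := hU (univ.filter fun i => x i ≠ y i) x
      have e1 : x = u := hu x ⟨fun i _ => rfl, fun i hi h1 => by
        rw [mem_filter] at hi
        exact absurd (hL i hi.2 h1) (by simp)⟩
      have e2 : y = u := hu y ⟨fun i hi => by
        by_contra h1
        exact hi (mem_filter.2 ⟨mem_univ i, fun h2 => h1 h2.symm⟩), fun i hi h1 => by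
        rw [mem_filter] at hi
        exact absurd (hL i hi.2 ((h i hi.2).2 h1)) (by simp)⟩
      rw [e1, e2]
    | insert j L hj ih =>
      intro s hU h hL
      by_cases hjx : x j ≠ y j ∧ j ∈ s x
      · apply ih (tog s j) (tog_us hU j)
        · intro i hi
          by_cases hij : i = j
          · subst hij
            rw [mem_tog_self, mem_tog_self, h i hi]
          · rw [mem_tog_ne hij, mem_tog_ne hij, h i hi]
        · intro i hi h1
          by_cases hij : i = j
          · subst hij
            rw [mem_tog_self] at h1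
            exact absurd hjx.2 h1
          · rw [mem_tog_ne hij] at h1
            exact mem_of_mem_insert_of_ne (hL i hi h1) hij
      · apply ih s hU h
        intro i hi h1
        exact mem_of_mem_insert_of_ne (hL i hi h1) (by rintro rfl; exact hjx ⟨hi, h1⟩)
  exact key univ s hU h fun i _ _ => mem_univ i


section

variable {α : Type*} [LinearOrder α] {f : (Fin n → Bool) → α}

omit [LinearOrder α] in
theorem flip_val_ne (hinj : Function.Injective f) (y : Fin n → Bool) (i : Fin n) :
    f (flip y i) ≠ f y := by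
  intro h
  have := congrFun (hinj h) i
  rw [flip_same] at this
  simp at this

theorem us_improving (hinj : Function.Injective f)
    (hf : ∀ (F : Finset (Fin n)) (x : Fin n → Bool), ∃! y : Fin n → Bool,
      (∀ i, i ∉ F → y i = x i) ∧ ∀ i ∈ F, f (flip y i) < f y) : US (improving f) := by
  have h1 : ∀ (y : Fin n → Bool) (i : Fin n), f (flip y i) < f y ↔ i ∉ improving f y := by
    intro y i
    rw [improving, mem_filter]
    simp only [mem_univ, true_and, not_lt]
    exact ⟨fun h => h.le, fun h => lt_of_le_of_ne h (flip_val_ne hinj y i)⟩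
  intro F x
  obtain ⟨y, ⟨hy1, hy2⟩, hy3⟩ := hf F x
  exact ⟨y, ⟨hy1, fun i hi => (h1 y i).1 (hy2 i hi)⟩,
    fun z hz => hy3 z ⟨hz.1, fun i hi => (h1 z i).2 (hz.2 i hi)⟩⟩

/-- switching improving directions increases the objective function -/
theorem sw_lt (hinj : Function.Injective f)
    (hf : ∀ (F : Finset (Fin n)) (x : Fin n → Bool), ∃! y : Fin n → Bool,
      (∀ i, i ∉ F → y i = x i) ∧ ∀ i ∈ F, f (flip y i) < f y) {x : Fin n → Bool} :
    ∀ (T : Finset (Fin n)), T ⊆ improving f x → T.Nonempty → f x < f (sw x T) := by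
  intro T
  induction hk : T.card using Nat.strong_induction_on generalizing T with
  | _ k ih =>
    intro hT hne
    have h1 : ∃ i, x i ≠ sw x T i ∧ ¬ (i ∈ improving f x ↔ i ∈ improving f (sw x T)) := by
      by_contra h
      push Not at h
      have h2 := us_pair (us_improving hinj hf) h
      obtain ⟨i, hi⟩ := hne
      have h3 := congrFun h2 i
      rw [sw_mem hi] at h3
      simp at h3
    obtain ⟨i, hi1, hi2⟩ := h1
    have hiT : i ∈ T := by
      by_contra h
      exact hi1 (sw_not_mem h).symm
    have hi3 : i ∉ improving f (sw x T) := fun h => hi2 (iff_of_true (hT hiT) h)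
    have hi4 : f (flip (sw x T) i) < f (sw x T) := by
      rw [improving, mem_filter] at hi3
      exact lt_of_le_of_ne (not_lt.1 fun h => hi3 ⟨mem_univ i, h⟩) (flip_val_ne hinj _ i)
    rw [sw_flip hiT] at hi4
    by_cases he : (T.erase i).Nonempty
    · exact (ih _ (by rw [← hk]; exact card_erase_lt_of_mem hiT) (T.erase i) rfl
        ((erase_subset _ _).trans hT) he).trans hi4
    · rw [not_nonempty_iff_eq_empty] at he
      rw [he] at hi4
      have : sw x ∅ = x := by funext j; simp [sw]
      rwa [this] at hi4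

/-- A better vertex differs from a vertex in a direction which is improving at the latter only. -/
theorem exists_dir (hinj : Function.Injective f)
    (hf : ∀ (F : Finset (Fin n)) (x : Fin n → Bool), ∃! y : Fin n → Bool,
      (∀ i, i ∉ F → y i = x i) ∧ ∀ i ∈ F, f (flip y i) < f y) {x y : Fin n → Bool}
    (hxy : f x < f y) : ∃ d ∈ improving f x, d ∉ improving f y ∧ x d ≠ y d := by
  by_contra hcon
  push Not at hcon
  set Q : Finset (Fin n) := (improving f y).filter fun d => x d ≠ y d with hQ
  have h1 : f y ≤ f (sw y Q) := by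
    by_cases hne : Q.Nonempty
    · exact (sw_lt hinj hf Q (filter_subset _ _) hne).le
    · rw [not_nonempty_iff_eq_empty] at hne
      rw [hne]
      have : sw y ∅ = y := by funext j; simp [sw]
      rw [this]
  have h2 : f (sw y Q) ≤ f x := by
    refine le_of_kill hinj hf x (sw y Q) fun d hd => ?_
    by_cases hdy : d ∈ improving f y
    · by_cases hxd : x d = y d
      · rw [sw_not_mem (by rw [hQ, mem_filter]; tauto), hxd]
      · rw [sw_mem (by rw [hQ, mem_filter]; exact ⟨hdy, hxd⟩)]
        exact (Bool.eq_not_of_ne hxd).symm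
    · have h3 := hcon d hd hdy
      rw [sw_not_mem (by rw [hQ, mem_filter]; tauto), h3]
  exact absurd (h1.trans h2) (not_le.2 hxy)

end

end Pool.Agent.Run7.h515.PW
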