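import Pool.Agent.Run7.h515.PV.Defs

set_option autoImplicit false

/-!
What a pivot rule with memory sees.
-/

namespace Pool.Agent.Run7.h515.PW

open Pool.Agent.Run7.h515.PV (improving)

/-- What is seen after `t` steps: the visited vertices with their sets of improving directions, the
present vertex first. -/
def seen {n : ℕ} {α : Type*} [LinearOrder α] (f : (Fin n → Bool) → α) (w : ℕ → (Fin n → Bool)) :
    ℕ → List ((Fin n → Bool) × Finset (Fin n))
  | 0 => [(w 0, improving f (w 0))]
  | t + 1 => (w (t + 1), improving f (w (t + 1))) :: seen f w t

end Pool.Agent.Run7.h515.PW
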