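import Pool.Agent.Run7.h515.PW.Game

set_option autoImplicit false

/-!
Bit masks for sets of cells (16 bits) and for sets of pairs (cell, set of directions) (256 bits) in a
block of four directions.
-/

namespace Pool.Agent.Run7.h515.PW

/-- The masks for the translations of pairs. -/
def mA : List ℕ := [1766820105243087041267848467410591083712559083657179364930612997358944255, 26959946660873538060741835960174461801791452538186943042387869433855, 6277101735386680763495507056286727952657427581105975853055, 340282366920938463463374607431768211455]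

/-- The masks for the translations of cells. -/
def mL : List ℕ := [21845, 13107, 3855, 255]

/-- The masks for the transpositions of directions, on sets of directions. -/
def mS : List ℕ := [15438945231642159389809464667825054380435997955418741871927677867721750618658, 5449039493520762137579811059232372134271528690147791248915651012137088453644, 424049766032744135220218759473336352861597563435625778125731596275259801840]

/-- The masks for the transpositions of directions, on the cells of pairs. -/
def mT : List ℕ := [26959535291011309494617955681309695723670668989160619180400863805440, 6277101733925179126504886505003981583404519168877516554240, 340282366920938463444927863358058659840]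

/-- The masks for the transpositions of directions, on cells. -/
def mU : List ℕ := [8738, 3084, 240]

/-- The pairs (cell `c`, set `o`) which are possible if `s` is the set of improving directions of the
completed cell `0`. -/
def mC : List ℕ := [0, 38596774139070317445509905720073499087395424035518968953364217798305256898560, 23158417842071249752539489389589214378619104572769822300254128193105052041216, 54035837155124806061681501265289210693956090182763042062222877043775981813760, 6811299366900952671605522545488307475869086918197284475694126848635714928640, 43137675027202427914561453536064872420522973195040608447856426660906669506560, 28607457335909187732893007873736099586645948710274811129855712432368440573952, 57668557865841946612183952477630091817810394343382063433560328428293880872960, 450552876409790643671482431940419874914123355247936286287915211675024752640, 38897145014938978449315590853492232195432963739752827937475933248459642306560, 23518860143220062770714709216900882446612795834245768391055426218825510551552, 54276133855833721973595468128103991616754270763188143576643637523715095592960,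 7235349132933696806827178041454064675779906497926238638470173159289121669120, 43420377028019991212261879728565351157614543231371091823078923215875085762560, 28946697148755129397059070041576378996242710668833835221641223818981989679104, 57894719466509161588103746378529149467753152244608973844629830668760441487360]

/-- The cells which are killed by the set of improving directions `s` in the cell `0`. -/
def mK : List ℕ := [65535, 21845, 13107, 4369, 3855, 1285, 771, 257, 255, 85, 51, 17, 15, 5, 3, 1]

/-- The transpositions on numbers less than 16. -/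
def tr4 : List (List ℕ) := [[0, 2, 1, 3, 4, 6, 5, 7, 8, 10, 9, 11, 12, 14, 13, 15], [0, 1, 4, 5, 2, 3, 6, 7, 8, 9, 12, 13, 10, 11, 14, 15], [0, 1, 2, 3, 8, 9, 10, 11, 4, 5, 6, 7, 12, 13, 14, 15]]

/-- Exchange the blocks of bits given by the mask `M` with their translates by `s`. -/
def exch (M s x : ℕ) : ℕ := ((x &&& M) <<< s) ||| ((x >>> s) &&& M)

/-- Exchange the bits given by the mask `M` with their translates by `s`, and leave the others. -/
def dsw (M s x : ℕ) : ℕ := x ^^^ (((x >>> s) ^^^ x) &&& M) ^^^ ((((x >>> s) ^^^ x) &&& M) <<< s)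

theorem exch_low {M s x i : ℕ} (h1 : M.testBit i = true) (h2 : s ≤ i → M.testBit (i - s) = false) :
    (exch M s x).testBit i = x.testBit (i + s) := by
  unfold exch
  rw [Nat.testBit_or, Nat.testBit_shiftLeft, Nat.testBit_and, Nat.testBit_and,
    Nat.testBit_shiftRight, h1]
  by_cases h : s ≤ i
  · simp [h2 h, add_comm]
  · simp [h, add_comm]

theorem exch_high {M s x i : ℕ} (h1 : M.testBit i = false) (h2 : s ≤ i)
    (h3 : M.testBit (i - s) = true) : (exch M s x).testBit i = x.testBit (i - s) := by
  unfold exch
  rw [Nat.testBit_or, Nat.testBit_shiftLeft, Nat.testBit_and, Nat.testBit_and,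
    Nat.testBit_shiftRight, h1, h3]
  simp [h2]

theorem dsw_low {M s x i : ℕ} (h1 : M.testBit i = true) (h2 : s ≤ i → M.testBit (i - s) = false) :
    (dsw M s x).testBit i = x.testBit (i + s) := by
  unfold dsw
  rw [Nat.testBit_xor, Nat.testBit_xor, Nat.testBit_shiftLeft, Nat.testBit_and, Nat.testBit_and,
    Nat.testBit_xor, Nat.testBit_xor, Nat.testBit_shiftRight, Nat.testBit_shiftRight, h1,
    add_comm i s]
  have h3 : ∀ a b : Bool, (a ^^ (b ^^ a)) = b := by decide
  by_cases h : s ≤ i
  · simp [h2 h, h3]
  · simp [h, h3]

theorem dsw_high {M s x i : ℕ} (h1 : M.testBit i = false) (h2 : s ≤ i)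
    (h3 : M.testBit (i - s) = true) : (dsw M s x).testBit i = x.testBit (i - s) := by
  unfold dsw
  rw [Nat.testBit_xor, Nat.testBit_xor, Nat.testBit_shiftLeft, Nat.testBit_and, Nat.testBit_and,
    Nat.testBit_xor, Nat.testBit_xor, Nat.testBit_shiftRight, Nat.testBit_shiftRight, h1, h3]
  have : s + (i - s) = i := by omega
  simp [h2, this]

theorem dsw_mid {M s x i : ℕ} (h1 : M.testBit i = false)
    (h2 : s ≤ i → M.testBit (i - s) = false) : (dsw M s x).testBit i = x.testBit i := by
  unfold dsw
  rw [Nat.testBit_xor, Nat.testBit_xor, Nat.testBit_shiftLeft, Nat.testBit_and, Nat.testBit_and,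
    Nat.testBit_xor, Nat.testBit_xor, Nat.testBit_shiftRight, Nat.testBit_shiftRight, h1]
  by_cases h : s ≤ i
  · simp [h2 h]
  · simp [h]

/-- Translation of a set of pairs by the direction `j`. -/
def shA (j A : ℕ) : ℕ := exch (mA.getD j 0) (16 * 2 ^ j) A

/-- Translation of a set of cells by the direction `j`. -/
def shL (j L : ℕ) : ℕ := exch (mL.getD j 0) (2 ^ j) L

/-- Transposition of the directions `a`, `a + 1` on a set of pairs. -/
def swA (a A : ℕ) : ℕ := dsw (mT.getD a 0) (16 * 2 ^ a) (dsw (mS.getD a 0) (2 ^ a) A)

/-- Transposition of the directions `a`, `a + 1` on a set of cells. -/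
def swL (a L : ℕ) : ℕ := dsw (mU.getD a 0) (2 ^ a) L

/-- Transposition of the directions `a`, `a + 1` on the numbers less than 16. -/
def tr (a c : ℕ) : ℕ := (tr4.getD a []).getD c 0

/-- The decidable facts which determine `exch`. -/
def exchOK (N : ℕ) (M s : ℕ) (σ : ℕ → ℕ) : Bool :=
  (List.range N).all fun i =>
    (M.testBit i && (!(decide (s ≤ i)) || !(M.testBit (i - s))) && (σ i == i + s)) ||
    (!(M.testBit i) && decide (s ≤ i) && M.testBit (i - s) && (σ i == i - s))

theorem exch_testBit {N M s : ℕ} {σ : ℕ → ℕ} (h : exchOK N M s σ = true) (x : ℕ) {i : ℕ}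
    (hi : i < N) : (exch M s x).testBit i = x.testBit (σ i) := by
  have h1 := List.all_eq_true.1 h i (List.mem_range.2 hi)
  simp only [Bool.or_eq_true, Bool.and_eq_true, Bool.not_eq_true', decide_eq_false_iff_not,
    decide_eq_true_eq, beq_iff_eq] at h1
  rcases h1 with ⟨⟨h2, h3⟩, h4⟩ | ⟨⟨⟨h2, h3⟩, h4⟩, h5⟩
  · rw [h4]
    refine exch_low h2 fun h5 => ?_
    rcases h3 with h3 | h3
    · exact absurd h5 h3
    · exact h3
  · rw [h5]
    exact exch_high h2 h3 h4

/-- The decidable facts which determine `dsw`. -/
def dswOK (N : ℕ) (M s : ℕ) (σ : ℕ → ℕ) : Bool :=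
  (List.range N).all fun i =>
    (M.testBit i && (!(decide (s ≤ i)) || !(M.testBit (i - s))) && (σ i == i + s)) ||
    (!(M.testBit i) && decide (s ≤ i) && M.testBit (i - s) && (σ i == i - s)) ||
    (!(M.testBit i) && (!(decide (s ≤ i)) || !(M.testBit (i - s))) && (σ i == i))

theorem dsw_testBit {N M s : ℕ} {σ : ℕ → ℕ} (h : dswOK N M s σ = true) (x : ℕ) {i : ℕ}
    (hi : i < N) : (dsw M s x).testBit i = x.testBit (σ i) := by
  have h1 := List.all_eq_true.1 h i (List.mem_range.2 hi)
  simp only [Bool.or_eq_true, Bool.and_eq_true, Bool.not_eq_true', decide_eq_false_iff_not,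
    decide_eq_true_eq, beq_iff_eq] at h1
  rcases h1 with (⟨⟨h2, h3⟩, h4⟩ | ⟨⟨⟨h2, h3⟩, h4⟩, h5⟩) | ⟨⟨h2, h3⟩, h4⟩
  · rw [h4]
    refine dsw_low h2 fun h5 => ?_
    rcases h3 with h3 | h3
    · exact absurd h5 h3
    · exact h3
  · rw [h5]
    exact dsw_high h2 h3 h4
  · rw [h4]
    refine dsw_mid h2 fun h5 => ?_
    rcases h3 with h3 | h3
    · exact absurd h5 h3
    · exact h3

theorem shA_testBit {j A c o : ℕ} (hj : j < 4) (hc : c < 16) (ho : o < 16) :
    (shA j A).testBit (16 * c + o) = A.testBit (16 * (c ^^^ 2 ^ j) + o) := by
  have h : ∀ j < 4, exchOK 256 (mA.getD j 0) (16 * 2 ^ j)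
      (fun i => 16 * ((i / 16) ^^^ 2 ^ j) + i % 16) = true := by decide +kernel
  have h1 := exch_testBit (h j hj) A (i := 16 * c + o) (by omega)
  have h2 : (16 * c + o) / 16 = c := by omega
  have h3 : (16 * c + o) % 16 = o := by omega
  rw [h2, h3] at h1
  exact h1

theorem shL_testBit {j L c : ℕ} (hj : j < 4) (hc : c < 16) :
    (shL j L).testBit c = L.testBit (c ^^^ 2 ^ j) := by
  have h : ∀ j < 4, exchOK 16 (mL.getD j 0) (2 ^ j) (fun i => i ^^^ 2 ^ j) = true := by
    decide +kernel
  exact exch_testBit (h j hj) L hc

theorem swA_testBit {a A c o : ℕ} (ha : a < 3) (hc : c < 16) (ho : o < 16) :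
    (swA a A).testBit (16 * tr a c + tr a o) = A.testBit (16 * c + o) := by
  have h1 : ∀ a < 3, dswOK 256 (mS.getD a 0) (2 ^ a) (fun i => 16 * (i / 16) + tr a (i % 16)) =
      true := by decide +kernel
  have h2 : ∀ a < 3, dswOK 256 (mT.getD a 0) (16 * 2 ^ a)
      (fun i => 16 * tr a (i / 16) + i % 16) = true := by decide +kernel
  have h3 : ∀ a < 3, ∀ c < 16, tr a c < 16 ∧ tr a (tr a c) = c := by decide +kernel
  have hc' := h3 a ha c hc
  have ho' := h3 a ha o ho
  unfold swA
  rw [dsw_testBit (h2 a ha) _ (by omega)]
  have e1 : (16 * tr a c + tr a o) / 16 = tr a c := by omega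
  have e2 : (16 * tr a c + tr a o) % 16 = tr a o := by omega
  rw [e1, e2, hc'.2, dsw_testBit (h1 a ha) _ (by omega)]
  have e3 : (16 * c + tr a o) / 16 = c := by omega
  have e4 : (16 * c + tr a o) % 16 = tr a o := by omega
  rw [e3, e4, ho'.2]

theorem swL_testBit {a L c : ℕ} (ha : a < 3) (hc : c < 16) :
    (swL a L).testBit (tr a c) = L.testBit c := by
  have h1 : ∀ a < 3, dswOK 16 (mU.getD a 0) (2 ^ a) (fun i => tr a i) = true := by
    decide +kernel
  have h3 : ∀ a < 3, ∀ c < 16, tr a c < 16 ∧ tr a (tr a c) = c := by decide +kernel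
  have hc' := h3 a ha c hc
  unfold swL
  rw [dsw_testBit (h1 a ha) _ hc'.1, hc'.2]

theorem mC_testBit {s c o : ℕ} (hs : s < 16) (hc : c < 16) (ho : o < 16)
    (h : c &&& s &&& (15 ^^^ o) ≠ 0) : (mC.getD s 0).testBit (16 * c + o) = true := by
  have h1 : ∀ s < 16, ∀ c < 16, ∀ o < 16, c &&& s &&& (15 ^^^ o) ≠ 0 →
      (mC.getD s 0).testBit (16 * c + o) = true := by decide +kernel
  exact h1 s hs c hc o ho h

theorem mK_testBit {s c : ℕ} (hs : s < 16) (hc : c < 16) :
    (mK.getD s 0).testBit c = true ↔ c &&& s = 0 := by
  have h1 : ∀ s < 16, ∀ c < 16, ((mK.getD s 0).testBit c = true ↔ c &&& s = 0) := by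
    decide +kernel
  exact h1 s hs c hc

/-- The number of a set of four directions. -/
def code (b : Fin 4 → Bool) : ℕ :=
  (b 0).toNat + 2 * (b 1).toNat + 4 * (b 2).toNat + 8 * (b 3).toNat

theorem code_lt (b : Fin 4 → Bool) : code b < 16 := by
  unfold code
  have := Bool.toNat_lt (b 0)
  have := Bool.toNat_lt (b 1)
  have := Bool.toNat_lt (b 2)
  have := Bool.toNat_lt (b 3)
  omega

theorem code_testBit (b : Fin 4 → Bool) (i : Fin 4) : (code b).testBit i = b i := by
  revert b i
  decide +kernel

theorem code_xor (b : Fin 4 → Bool) (j : Fin 4) :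
    code (fun i => if i = j then !(b i) else b i) = code b ^^^ 2 ^ (j : ℕ) := by
  revert b j
  decide +kernel

theorem code_swap (b : Fin 4 → Bool) (a : Fin 3) :
    code (fun i => b (Equiv.swap a.castSucc a.succ i)) = tr a (code b) := by
  revert b a
  decide +kernel

end Pool.Agent.Run7.h515.PW
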