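import Pool.Agent.Run7.h515.PW.Cube
import Pool.Agent.Run7.h515.PW.Table
import Pool.Agent.Run7.h515.PW.Defs

set_option autoImplicit false

/-!
The recursion `T ↦ 7 T + 11` for four more directions, and the pivot rule.
-/

namespace Pool.Agent.Run7.h515.PW

open Finset
open Pool.Agent.Run7.h515.PV (flip flip_same flip_ne improving)

/-- The number of moves for `k` blocks. -/
def tt : ℕ → ℕ
  | 0 => 0
  | k + 1 => 7 * tt k + 11

theorem tt_eq (k : ℕ) : 6 * tt k + 11 = 11 * 7 ^ k := by
  induction k with
  | zero => simp [tt]
  | succ k ih =>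
    rw [tt, pow_succ]
    omega

theorem last_entry : (tab.getD 105 dflt).g = true ∧ (tab.getD 105 dflt).A = 2 ^ 256 - 1 ∧
    (tab.getD 105 dflt).B = 2 ^ 256 - 1 ∧ (tab.getD 105 dflt).L = 65535 ∧
    (tab.getD 105 dflt).m = 6 ∧ (tab.getD 105 dflt).r = 11 := by
  decide +kernel

theorem step {R U : Finset ℕ} {T : ℕ} (hT : ∀ v, Win R T [] v) {π : Fin 4 → ℕ}
    (hπ : Emb R U π) (v : V) : Win U (7 * T + 11) [] v := by
  have h := chkAll_sound (R := R) (U := U) hT tab_ok 105 (by norm_num)
  obtain ⟨h1, h2, h3, h4, h5, h6⟩ := last_entry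
  rw [h1, h2, h3, h4, h5, h6] at h
  unfold Claim at h
  rw [if_pos rfl] at h
  have hb : ∀ (y : V) (o : Finset ℕ),
      (2 ^ 256 - 1 : ℕ).testBit (16 * rel π v y + off π o) = true := by
    intro y o
    rw [Nat.testBit_two_pow_sub_one]
    have := rel_lt π v y
    have := off_lt π o
    simp only [decide_eq_true_eq]
    omega
  have h7 := h π hπ [] [] v T (fun p hp => absurd hp (by simp)) (fun y o _ _ _ => hb y o)
    (fun y o _ _ _ => hb y o) (fun y o _ _ _ _ p hp => absurd hp (by simp)) (hT v)
  have h8 : T + 6 * T + 11 = 7 * T + 11 := by ring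
  rwa [h8] at h7

theorem win_blocks (k : ℕ) (v : V) : Win (range (4 * k)) (tt k) [] v := by
  induction k generalizing v with
  | zero =>
    intro o ho _
    exact subset_empty.1 ho
  | succ k ih =>
    refine step ih (π := fun i => 4 * k + i) ⟨?_, ?_, ?_⟩ v
    · intro i j hij
      simp only at hij
      exact Fin.ext (by omega)
    · intro i
      simp
    · intro d
      simp only [mem_range]
      constructor
      · intro hd
        by_cases h : d < 4 * k
        · exact Or.inl h
        · exact Or.inr ⟨⟨d - 4 * k, by omega⟩, by simp; omega⟩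
      · rintro (h | ⟨i, rfl⟩)
        · omega
        · have := i.2
          omega

variable {n : ℕ}

/-- The vertices of the `n`-cube as vertices of the infinite cube. -/
def ext (x : Fin n → Bool) : V := fun i => if h : i < n then x ⟨i, h⟩ else false

/-- Sets of directions of the `n`-cube as sets of numbers. -/
def up (S : Finset (Fin n)) : Finset ℕ := S.map Fin.valEmbedding

theorem ext_val (x : Fin n → Bool) (i : Fin n) : ext x i = x i := by
  simp [ext]

theorem fl_ext (x : Fin n → Bool) (i : Fin n) : fl (ext x) i = ext (flip x i) := by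
  funext d
  by_cases hd : d = i
  · subst hd
    rw [fl_same, ext_val, ext_val, flip_same]
  · rw [fl_ne _ hd]
    unfold ext
    by_cases h : d < n
    · rw [dif_pos h, dif_pos h, flip_ne]
      intro h'
      exact hd (by rw [← h'])
    · rw [dif_neg h, dif_neg h]

/-- What the rule has seen before the present vertex. -/
def past (H : List ((Fin n → Bool) × Finset (Fin n))) : Hist := H.map fun p => (ext p.1, up p.2)

open Classical in
/-- The pivot rule: it knows the vertices which it has visited with their sets of improving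
directions, the present vertex first. -/
noncomputable def ruleOf (hn : 0 < n) (T : ℕ) : List ((Fin n → Bool) × Finset (Fin n)) → Fin n
  | [] => ⟨0, hn⟩
  | (x, S) :: H =>
    if h : ∃ i ∈ S, ∃ t, T = t + (H.length + 1) ∧
        Win (range n) t ((ext x, up S) :: past H) (fl (ext x) i) then h.choose
    else if h : S.Nonempty then h.choose
    else ⟨0, hn⟩

theorem ruleOf_mem (hn : 0 < n) (T : ℕ) (x : Fin n → Bool) (S : Finset (Fin n))
    (H : List ((Fin n → Bool) × Finset (Fin n))) (hS : S.Nonempty) :
    ruleOf hn T ((x, S) :: H) ∈ S := by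
  rw [ruleOf]
  split_ifs with h
  · exact h.choose_spec.1
  · exact hS.choose_spec

theorem ruleOf_win (hn : 0 < n) (T : ℕ) (x : Fin n → Bool) (S : Finset (Fin n))
    (H : List ((Fin n → Bool) × Finset (Fin n)))
    (h : ∃ i ∈ S, ∃ t, T = t + (H.length + 1) ∧
        Win (range n) t ((ext x, up S) :: past H) (fl (ext x) i)) :
    ∃ t, T = t + (H.length + 1) ∧
      Win (range n) t (past ((x, S) :: H)) (ext (flip x (ruleOf hn T ((x, S) :: H)))) := by
  rw [ruleOf, dif_pos h, ← fl_ext]
  exact h.choose_spec.2

section

variable {α : Type*} [LinearOrder α] (f : (Fin n → Bool) → α)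
  (rule : List ((Fin n → Bool) × Finset (Fin n)) → Fin n) (x₀ : Fin n → Bool)

/-- The lists seen by the rule. -/
def run : ℕ → List ((Fin n → Bool) × Finset (Fin n))
  | 0 => [(x₀, improving f x₀)]
  | t + 1 => match run t with
    | [] => []
    | (x, S) :: H => (flip x (rule ((x, S) :: H)), improving f (flip x (rule ((x, S) :: H)))) ::
        (x, S) :: H

/-- The vertices visited by the rule. -/
def path (t : ℕ) : Fin n → Bool := ((run f rule x₀ t).head?.map Prod.fst).getD x₀

theorem run_shape (t : ℕ) : ∃ H, run f rule x₀ t =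
    (path f rule x₀ t, improving f (path f rule x₀ t)) :: H ∧ H.length = t := by
  induction t with
  | zero => exact ⟨[], by simp [run, path], rfl⟩
  | succ t ih =>
    obtain ⟨H, h1, h2⟩ := ih
    have h3 : run f rule x₀ (t + 1) = (flip (path f rule x₀ t) (rule (run f rule x₀ t)),
        improving f (flip (path f rule x₀ t) (rule (run f rule x₀ t)))) ::
        run f rule x₀ t := by
      rw [run, h1]
    refine ⟨run f rule x₀ t, ?_, ?_⟩
    · have h4 : path f rule x₀ (t + 1) = flip (path f rule x₀ t) (rule (run f rule x₀ t)) := by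
        rw [path, h3]
        simp
      rw [h4, h3]
    · rw [h1]
      simp [h2]

theorem run_succ (t : ℕ) : run f rule x₀ (t + 1) =
    (path f rule x₀ (t + 1), improving f (path f rule x₀ (t + 1))) :: run f rule x₀ t ∧
    path f rule x₀ (t + 1) = flip (path f rule x₀ t) (rule (run f rule x₀ t)) := by
  obtain ⟨H, h1, h2⟩ := run_shape f rule x₀ t
  have h3 : run f rule x₀ (t + 1) = (flip (path f rule x₀ t) (rule (run f rule x₀ t)),
      improving f (flip (path f rule x₀ t) (rule (run f rule x₀ t)))) ::
      run f rule x₀ t := by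
    rw [run, h1]
  have h4 : path f rule x₀ (t + 1) = flip (path f rule x₀ t) (rule (run f rule x₀ t)) := by
    rw [path, h3]
    simp
  exact ⟨by rw [h4, h3], h4⟩

theorem run_eq_seen (t : ℕ) : run f rule x₀ t = seen f (path f rule x₀) t := by
  induction t with
  | zero =>
    have : path f rule x₀ 0 = x₀ := by simp [path, run]
    rw [run, seen, this]
  | succ t ih => rw [(run_succ f rule x₀ t).1, seen, ih]

theorem mem_run {t : ℕ} {p : (Fin n → Bool) × Finset (Fin n)} (hp : p ∈ run f rule x₀ t) :
    ∃ s ≤ t, p = (path f rule x₀ s, improving f (path f rule x₀ s)) := by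
  induction t with
  | zero =>
    have : path f rule x₀ 0 = x₀ := by simp [path, run]
    rw [run, List.mem_singleton] at hp
    exact ⟨0, le_rfl, by rw [hp, this]⟩
  | succ t ih =>
    rw [(run_succ f rule x₀ t).1] at hp
    rcases List.mem_cons.1 hp with hp | hp
    · exact ⟨t + 1, le_rfl, hp⟩
    · obtain ⟨s, hs, h⟩ := ih hp
      exact ⟨s, by omega, h⟩

end

theorem main (hn : 0 < n) (T : ℕ) (hW : ∀ v, Win (range n) T [] v) {α : Type*} [LinearOrder α]
    (f : (Fin n → Bool) → α) (hinj : Function.Injective f)
    (hf : ∀ (F : Finset (Fin n)) (x : Fin n → Bool), ∃! y : Fin n → Bool,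
      (∀ i, i ∉ F → y i = x i) ∧ ∀ i ∈ F, f (flip y i) < f y) (x₀ : Fin n → Bool) :
    ∃ (L : ℕ) (w : ℕ → (Fin n → Bool)), w 0 = x₀ ∧
      (∀ t < L, (improving f (w t)).Nonempty ∧ w (t + 1) = flip (w t) (ruleOf hn T (seen f w t))) ∧
      improving f (w L) = ∅ ∧ L ≤ T := by
  set w := path f (ruleOf hn T) x₀ with hw
  have hw0 : w 0 = x₀ := by simp [hw, path, run]
  have hstep : ∀ t, w (t + 1) = flip (w t) (ruleOf hn T (seen f w t)) := by
    intro t
    rw [hw, (run_succ f (ruleOf hn T) x₀ t).2, run_eq_seen]
  have hincr : ∀ t, (improving f (w t)).Nonempty → f (w t) < f (w (t + 1)) := by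
    intro t ht
    have h1 : ruleOf hn T (seen f w t) ∈ improving f (w t) := by
      rw [hw, ← run_eq_seen]
      obtain ⟨H, h2, _⟩ := run_shape f (ruleOf hn T) x₀ t
      rw [h2]
      exact ruleOf_mem hn T _ _ H ht
    rw [hstep t]
    simpa [improving] using h1
  have key : ∀ t, (∀ s < t, (improving f (w s)).Nonempty) →
      ∃ u, T = u + t ∧ Win (range n) u (past (run f (ruleOf hn T) x₀ t).tail) (ext (w t)) := by
    intro t
    induction t with
    | zero =>
      intro _
      exact ⟨T, rfl, by simpa [run, past] using hW _⟩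
    | succ t ih =>
      intro hs
      obtain ⟨u, hu, h1⟩ := ih fun s hs' => hs s (by omega)
      have hne := hs t (by omega)
      obtain ⟨H, h2, h3⟩ := run_shape f (ruleOf hn T) x₀ t
      have hmono : ∀ a b, a ≤ b → b ≤ t → f (w a) ≤ f (w b) := by
        intro a b hab
        induction hab with
        | refl => exact fun _ => le_rfl
        | @step m hm ih2 => exact fun hb => (ih2 (by omega)).trans (hincr m (hs m (by omega))).le
      have hlegal : Legal (past H) (ext (w t)) (up (improving f (w t))) := by
        intro p hp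
        rw [past, List.mem_map] at hp
        obtain ⟨q, hq, rfl⟩ := hp
        have hlt : ∃ s < t, q = (w s, improving f (w s)) := by
          cases t with
          | zero =>
            rw [List.length_eq_zero_iff] at h3
            rw [h3] at hq
            exact absurd hq (by simp)
          | succ t =>
            have h4 := (run_succ f (ruleOf hn T) x₀ t).1
            rw [h4] at h2
            have h5 := (List.cons.inj h2).2
            rw [← h5] at hq
            obtain ⟨s, hs', h6⟩ := mem_run f (ruleOf hn T) x₀ hq
            exact ⟨s, by omega, h6⟩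
        obtain ⟨s, hst, rfl⟩ := hlt
        have hlt' : f (w s) < f (w t) :=
          (hincr s (hs s (by omega))).trans_le (hmono (s + 1) t hst le_rfl)
        obtain ⟨d, hd1, hd2, hd3⟩ := exists_dir hinj hf hlt'
        refine ⟨d, ?_, ?_, ?_⟩
        · simp only [up, mem_map, Fin.valEmbedding_apply]
          exact ⟨d, hd1, rfl⟩
        · simp only [up, mem_map, Fin.valEmbedding_apply, not_exists, not_and]
          intro e he hed
          have : e = d := Fin.ext hed
          exact hd2 (this ▸ he)
        · simp only [ext_val]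
          exact hd3
      have hne' : up (improving f (w t)) ≠ ∅ := by
        obtain ⟨i, hi⟩ := hne
        intro h
        have : (i : ℕ) ∈ up (improving f (w t)) := by
          simp only [up, mem_map, Fin.valEmbedding_apply]
          exact ⟨i, hi, rfl⟩
        rw [h] at this
        exact absurd this (by simp)
      have hsub : up (improving f (w t)) ⊆ range n := by
        intro d hd
        simp only [up, mem_map, Fin.valEmbedding_apply] at hd
        obtain ⟨i, _, rfl⟩ := hd
        exact mem_range.2 i.2
      have htail : (run f (ruleOf hn T) x₀ t).tail = H := by rw [h2]; rfl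
      rw [htail] at h1
      obtain ⟨i, hi, u', hu', h4⟩ := h1.step hsub hlegal hne'
      simp only [up, mem_map, Fin.valEmbedding_apply] at hi
      obtain ⟨i, hi, rfl⟩ := hi
      have h5 := ruleOf_win hn T (w t) (improving f (w t)) H ⟨i, hi, u', by omega, h4⟩
      obtain ⟨u2, hu2, h6⟩ := h5
      refine ⟨u2, by omega, ?_⟩
      rw [(run_succ f (ruleOf hn T) x₀ t).1, List.tail_cons, h2, hstep t, ← run_eq_seen, h2]
      exact h6
  have hex : ∃ L, improving f (w L) = ∅ := by
    by_contra hcon
    push Not at hcon
    obtain ⟨u, hu, _⟩ := key (T + 1) fun s _ => hcon s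
    omega
  classical
  have hmin : ∀ s < Nat.find hex, (improving f (w s)).Nonempty := fun s hs =>
    nonempty_iff_ne_empty.2 (Nat.find_min hex hs)
  obtain ⟨u, hu, _⟩ := key (Nat.find hex) hmin
  exact ⟨Nat.find hex, w, hw0, fun t ht => ⟨hmin t ht, hstep t⟩, Nat.find_spec hex, by omega⟩

end Pool.Agent.Run7.h515.PW
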