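import Pool.Agent.Run7.h515.PW.Mask

set_option autoImplicit false

/-!
Soundness of the finite game on a block of four directions.
-/

namespace Pool.Agent.Run7.h515.PW

open Finset

/-- The cell of `y` relative to the cell of `v`. -/
def rel (π : Fin 4 → ℕ) (v y : V) : ℕ := code fun i => v (π i) != y (π i)

/-- The number of the set of directions of the block in `o`. -/
def off (π : Fin 4 → ℕ) (o : Finset ℕ) : ℕ := code fun i => decide (π i ∈ o)

theorem rel_lt (π : Fin 4 → ℕ) (v y : V) : rel π v y < 16 := code_lt _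

theorem off_lt (π : Fin 4 → ℕ) (o : Finset ℕ) : off π o < 16 := code_lt _

/-- The block of directions `π` together with the directions `R` forms `U`. -/
structure Emb (R U : Finset ℕ) (π : Fin 4 → ℕ) : Prop where
  inj : Function.Injective π
  notin : ∀ i, π i ∉ R
  mem : ∀ d, d ∈ U ↔ d ∈ R ∨ ∃ i, d = π i

/-- The pairs in `A` contain all possible pairs. -/
def CA (U : Finset ℕ) (π : Fin 4 → ℕ) (H : Hist) (v : V) (A : ℕ) : Prop :=
  ∀ (y : V) (o : Finset ℕ), (∀ d, d ∉ U → y d = v d) → o ⊆ U → Legal H y o →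
    A.testBit (16 * rel π v y + off π o) = true

/-- The pairs in `B` contain all pairs which are possible in the fibre of `v`. -/
def CB (U : Finset ℕ) (π : Fin 4 → ℕ) (H : Hist) (v : V) (B : ℕ) : Prop :=
  ∀ (y : V) (o : Finset ℕ), (∀ d, (∀ i, d ≠ π i) → y d = v d) → o ⊆ U → Legal H y o →
    B.testBit (16 * rel π v y + off π o) = true

/-- The play with history `E` is linked to the cells in `L`. -/
def CL (R U : Finset ℕ) (π : Fin 4 → ℕ) (H E : Hist) (v : V) (L : ℕ) : Prop :=
  ∀ (y : V) (o : Finset ℕ), (∀ d, d ∉ U → y d = v d) → L.testBit (rel π v y) = true → o ⊆ U →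
    Legal H y o → Legal E y (o ∩ R)

/-- The claim for a state in the middle of a play. -/
def FS (R U : Finset ℕ) (T A L m r : ℕ) : Prop :=
  ∀ π : Fin 4 → ℕ, Emb R U π → ∀ (H E : Hist) (v : V) (t : ℕ), (∀ p ∈ E, p.2 ⊆ R) →
    CA U π H v A → CL R U π H E v L → Win R t E v → Win U (t + m * T + r) H v

/-- The claim for a state after a move in the block. -/
def GS (R U : Finset ℕ) (T A B L m r : ℕ) : Prop :=
  ∀ π : Fin 4 → ℕ, Emb R U π → ∀ (H E : Hist) (v : V) (t : ℕ), (∀ p ∈ E, p.2 ⊆ R) →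
    CA U π H v A → CB U π H v B → CL R U π H E v L → Win R t E v → Win U (t + m * T + r) H v

theorem Win.of_step {U : Finset ℕ} {N : ℕ} {H : Hist} {v : V}
    (h : ∀ o ⊆ U, Legal H v o → o ≠ ∅ →
      ∃ i ∈ o, ∃ t', t' + 1 ≤ N ∧ Win U t' ((v, o) :: H) (fl v i)) : Win U N H v := by
  cases N with
  | zero =>
    intro o ho hl
    by_contra hne
    obtain ⟨i, _, t', h1, _⟩ := h o ho hl hne
    omega
  | succ N =>
    intro o ho hl
    by_cases hne : o = ∅
    · exact Or.inl hne
    · obtain ⟨i, hi, t', h1, h2⟩ := h o ho hl hne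
      exact Or.inr ⟨i, hi, h2.mono (by omega)⟩

theorem rel_self (π : Fin 4 → ℕ) (v : V) : rel π v v = 0 := by
  unfold rel code
  simp

theorem rel_move {π : Fin 4 → ℕ} {v : V} {i : ℕ} (hi : ∀ j, π j ≠ i) (y : V) :
    rel π (fl v i) y = rel π v y := by
  unfold rel
  congr 1
  funext j
  rw [fl_ne v (hi j)]

theorem rel_jump {π : Fin 4 → ℕ} (hπ : Function.Injective π) (v y : V) (j : Fin 4) :
    rel π (fl v (π j)) y = rel π v y ^^^ 2 ^ (j : ℕ) := by
  unfold rel
  rw [← code_xor]
  congr 1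
  funext i
  by_cases h : i = j
  · subst h
    rw [fl_same]
    cases v (π i) <;> cases y (π i) <;> simp
  · rw [fl_ne v (fun h' => h (hπ h'))]
    simp [h]

theorem off_testBit (π : Fin 4 → ℕ) (o : Finset ℕ) (i : Fin 4) :
    (off π o).testBit i = true ↔ π i ∈ o := by
  unfold off
  rw [code_testBit]
  simp

theorem rel_testBit (π : Fin 4 → ℕ) (v y : V) (i : Fin 4) :
    (rel π v y).testBit i = true ↔ v (π i) ≠ y (π i) := by
  unfold rel
  rw [code_testBit]
  simp

theorem con_of {π : Fin 4 → ℕ} {v y : V} {o o' : Finset ℕ} {i : Fin 4} (h1 : π i ∈ o)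
    (h2 : π i ∉ o') (h3 : v (π i) ≠ y (π i)) :
    (mC.getD (off π o) 0).testBit (16 * rel π v y + off π o') = true := by
  refine mC_testBit (off_lt _ _) (rel_lt _ _ _) (off_lt _ _) ?_
  intro h
  have h4 : (rel π v y &&& off π o &&& (15 ^^^ off π o')).testBit i = true := by
    rw [Nat.testBit_and, Nat.testBit_and, Nat.testBit_xor, (rel_testBit π v y i).2 h3,
      (off_testBit π o i).2 h1]
    have h5 : (off π o').testBit i = false := by
      rw [← Bool.not_eq_true, off_testBit]
      exact h2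
    rw [h5]
    have h6 : ∀ i : Fin 4, (15 : ℕ).testBit i = true := by decide
    rw [h6 i]
    rfl
  rw [h] at h4
  simp at h4

theorem mem_block {R U : Finset ℕ} {π : Fin 4 → ℕ} (hπ : Emb R U π) (j : Fin 4) : π j ∈ U :=
  (hπ.mem _).2 (Or.inr ⟨j, rfl⟩)

section

variable {R U : Finset ℕ} {π : Fin 4 → ℕ} {H E : Hist} {v : V} {A B L : ℕ} {o : Finset ℕ}

theorem CA.cons (h : CA U π H v A) (p : V × Finset ℕ) : CA U π (p :: H) v A :=
  fun y o hy ho hl => h y o hy ho hl.tail

theorem CB.cons (h : CB U π H v B) (p : V × Finset ℕ) : CB U π (p :: H) v B :=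
  fun y o hy ho hl => h y o hy ho hl.tail

theorem CL.cons (h : CL R U π H E v L) (p : V × Finset ℕ) : CL R U π (p :: H) E v L :=
  fun y o hy hL ho hl => h y o hy hL ho hl.tail

theorem CA.toCB (hπ : Emb R U π) (h : CA U π H v A) : CB U π H v A := by
  intro y o hy ho hl
  refine h y o (fun d hd => hy d fun i hi => hd ?_) ho hl
  rw [hi]
  exact mem_block hπ i

theorem CA.con (hπ : Emb R U π) (h : CA U π H v A) (ho : o ⊆ U) (hR : o ∩ R = ∅) :
    CA U π ((v, o) :: H) v (A &&& mC.getD (off π o) 0) := by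
  intro y o' hy ho' hl
  rw [Nat.testBit_and, h y o' hy ho' hl.tail, Bool.true_and]
  obtain ⟨d, hd, hd1, hd2⟩ := hl.head
  change d ∈ o at hd
  change v d ≠ y d at hd2
  rcases (hπ.mem d).1 (ho hd) with h1 | ⟨i, rfl⟩
  · exfalso
    have : d ∈ o ∩ R := mem_inter.2 ⟨hd, h1⟩
    rw [hR] at this
    exact absurd this (by simp)
  · exact con_of hd hd1 hd2

theorem CB.con (h : CB U π H v B) : CB U π ((v, o) :: H) v (B &&& mC.getD (off π o) 0) := by
  intro y o' hy ho' hl
  rw [Nat.testBit_and, h y o' hy ho' hl.tail, Bool.true_and]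
  obtain ⟨d, hd, hd1, hd2⟩ := hl.head
  change d ∈ o at hd
  change v d ≠ y d at hd2
  by_cases h1 : ∀ i, d ≠ π i
  · exact absurd (hy d h1).symm hd2
  · push Not at h1
    obtain ⟨i, rfl⟩ := h1
    exact con_of hd hd1 hd2

theorem CA.jump (hπ : Emb R U π) (h : CA U π H v A) (j : Fin 4) :
    CA U π H (fl v (π j)) (shA j A) := by
  intro y o hy ho hl
  rw [rel_jump hπ.inj, shA_testBit j.2 (by
    rw [← rel_jump hπ.inj]; exact rel_lt _ _ _) (off_lt _ _), Nat.xor_xor_cancel_right]
  refine h y o (fun d hd => ?_) ho hl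
  rw [hy d hd, fl_ne v fun h' => hd (by rw [h']; exact mem_block hπ j)]

theorem CB.jump (hπ : Emb R U π) (h : CB U π H v B) (j : Fin 4) :
    CB U π H (fl v (π j)) (shA j B) := by
  intro y o hy ho hl
  rw [rel_jump hπ.inj, shA_testBit j.2 (by
    rw [← rel_jump hπ.inj]; exact rel_lt _ _ _) (off_lt _ _), Nat.xor_xor_cancel_right]
  refine h y o (fun d hd => ?_) ho hl
  rw [hy d hd, fl_ne v (hd j)]

theorem CL.jump (hπ : Emb R U π) (h : CL R U π H E v L) (j : Fin 4) :
    CL R U π H E (fl v (π j)) (shL j L) := by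
  intro y o hy hL ho hl
  rw [rel_jump hπ.inj, shL_testBit j.2 (by
    rw [← rel_jump hπ.inj]; exact rel_lt _ _ _), Nat.xor_xor_cancel_right] at hL
  refine h y o (fun d hd => ?_) hL ho hl
  rw [hy d hd, fl_ne v fun h' => hd (by rw [h']; exact mem_block hπ j)]

theorem ne_of_mem_R (hπ : Emb R U π) {i : ℕ} (hi : i ∈ R) (j : Fin 4) : π j ≠ i :=
  fun h => hπ.notin j (h ▸ hi)

theorem CA.move (hπ : Emb R U π) (h : CA U π H v A) {i : ℕ} (hi : i ∈ R) :
    CA U π H (fl v i) A := by
  intro y o hy ho hl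
  rw [rel_move (ne_of_mem_R hπ hi)]
  refine h y o (fun d hd => ?_) ho hl
  rw [hy d hd, fl_ne v fun h' => hd (by rw [h']; exact (hπ.mem i).2 (Or.inl hi))]

theorem CL.move (hπ : Emb R U π) (h : CL R U π H E v L) {i : ℕ} (hi : i ∈ R) :
    CL R U π H E (fl v i) L := by
  intro y o hy hL ho hl
  rw [rel_move (ne_of_mem_R hπ hi)] at hL
  refine h y o (fun d hd => ?_) hL ho hl
  rw [hy d hd, fl_ne v fun h' => hd (by rw [h']; exact (hπ.mem i).2 (Or.inl hi))]

theorem CL.item (hπ : Emb R U π) (h : CL R U π H E v L) (ho : o ⊆ U)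
    (hL : L &&& mK.getD (off π o) 0 = L) : CL R U π ((v, o) :: H) ((v, o ∩ R) :: E) v L := by
  intro y o' hy hL' ho' hl p hp
  rcases List.mem_cons.1 hp with rfl | hp
  · obtain ⟨d, hd, hd1, hd2⟩ := hl.head
    change d ∈ o at hd
    change v d ≠ y d at hd2
    rcases (hπ.mem d).1 (ho hd) with h1 | ⟨i, rfl⟩
    · exact ⟨d, mem_inter.2 ⟨hd, h1⟩, fun h2 => hd1 (mem_inter.1 h2).1, hd2⟩
    · exfalso
      have h1 : (mK.getD (off π o) 0).testBit (rel π v y) = true := by
        rw [← hL, Nat.testBit_and] at hL'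
        exact (Bool.and_eq_true_iff.1 hL').2
      rw [mK_testBit (off_lt _ _) (rel_lt _ _ _)] at h1
      have h2 : (rel π v y &&& off π o).testBit i = true := by
        rw [Nat.testBit_and, (rel_testBit π v y i).2 hd2, (off_testBit π o i).2 hd]
        rfl
      rw [h1] at h2
      simp at h2
  · exact h y o' hy hL' ho' hl.tail p hp

theorem CL.kill (h : CL R U π H E v L) (K : ℕ) : CL R U π H E v (L &&& K) := by
  intro y o hy hL ho hl
  rw [Nat.testBit_and] at hL
  exact h y o hy (Bool.and_eq_true_iff.1 hL).1 ho hl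

end

/-- A jump in the block is possible: linked, or with a fresh play. -/
def JS (R U : Finset ℕ) (T A B L m r O : ℕ) : Prop :=
  ∃ j : Fin 4, O.testBit j = true ∧ ∃ r', r' + 1 ≤ r ∧
    ((L.testBit (2 ^ (j : ℕ)) = true ∧ GS R U T (shA j A) (shA j B) (shL j L) m r') ∨
      ∃ m', m = m' + 1 ∧ GS R U T (shA j A) (shA j B) 65535 m' r')

theorem JS.use {R U : Finset ℕ} {T : ℕ} (hT : ∀ v, Win R T [] v) {A B L m r : ℕ}
    {π : Fin 4 → ℕ} (hπ : Emb R U π) {o : Finset ℕ} (h : JS R U T A B L m r (off π o))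
    {H E : Hist} {v : V} {t : ℕ} (hE : ∀ p ∈ E, p.2 ⊆ R) (hA : CA U π H v A) (hB : CB U π H v B)
    (hL : CL R U π H E v L) (hW : Win R t E v) :
    ∃ i ∈ o, ∃ t', t' + 1 ≤ t + m * T + r ∧ Win U t' H (fl v i) := by
  obtain ⟨j, hj, r', hr, h1⟩ := h
  rw [off_testBit] at hj
  have hag : ∀ d ∈ R, v d = fl v (π j) d := fun d hd =>
    (fl_ne v (fun h' => hπ.notin j (by rw [← h']; exact hd))).symm
  rcases h1 with ⟨_, h2⟩ | ⟨m', hm, h2⟩
  · exact ⟨π j, hj, t + m * T + r', by omega,
      h2 π hπ H E _ t hE (hA.jump hπ j) (hB.jump hπ j) (hL.jump hπ j) (hW.transl hE hag)⟩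
  · refine ⟨π j, hj, T + m' * T + r', ?_,
      h2 π hπ H [] _ T (fun p hp => absurd hp (by simp)) (hA.jump hπ j) (hB.jump hπ j) ?_
        (hT _)⟩
    · have : m * T = T + m' * T := by rw [hm]; ring
      omega
    · intro y o' _ _ _ _ p hp
      exact absurd hp (by simp)

theorem soundF {R U : Finset ℕ} {T : ℕ} (hT : ∀ v, Win R T [] v) {A L m r : ℕ}
    (h0 : L.testBit 0 = true)
    (hc : ∀ O < 16, O ≠ 0 → A.testBit O = true →
      JS R U T (A &&& mC.getD O 0) (A &&& mC.getD O 0) L m r O)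
    (hd : ∀ O < 16, A.testBit O = true → L &&& mK.getD O 0 = L ∨
      (∃ r' ≤ r, FS R U T A (L &&& mK.getD O 0) m r') ∨ JS R U T A (A &&& mC.getD O 0) L m r O) :
    FS R U T A L m r := by
  intro π hπ H E v t hE hA hL hW
  induction t generalizing H E v with
  | zero =>
    refine Win.of_step fun o ho hl hne => ?_
    have hO : A.testBit (off π o) = true := by
      have := hA v o (fun _ _ => rfl) ho hl
      rwa [rel_self, mul_zero, zero_add] at this
    have hlE : Legal E v (o ∩ R) := hL v o (fun _ _ => rfl) (by rw [rel_self]; exact h0) ho hl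
    have hR : o ∩ R = ∅ := hW (o ∩ R) inter_subset_right hlE
    have hO0 : off π o ≠ 0 := by
      intro h1
      apply hne
      ext d
      simp only [notMem_empty, iff_false]
      intro hd
      rcases (hπ.mem d).1 (ho hd) with h2 | ⟨i, rfl⟩
      · have : d ∈ o ∩ R := mem_inter.2 ⟨hd, h2⟩
        rw [hR] at this
        exact absurd this (by simp)
      · have := (off_testBit π o i).2 hd
        rw [h1] at this
        simp at this
    have hA2 := hA.con hπ ho hR
    exact (hc _ (off_lt _ _) hO0 hO).use hT hπ hE hA2 (hA2.toCB hπ) (hL.cons _) hW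
  | succ t ih =>
    refine Win.of_step fun o ho hl hne => ?_
    have hO : A.testBit (off π o) = true := by
      have := hA v o (fun _ _ => rfl) ho hl
      rwa [rel_self, mul_zero, zero_add] at this
    have hlE : Legal E v (o ∩ R) := hL v o (fun _ _ => rfl) (by rw [rel_self]; exact h0) ho hl
    by_cases hR : o ∩ R = ∅
    · have hO0 : off π o ≠ 0 := by
        intro h1
        apply hne
        ext d
        simp only [notMem_empty, iff_false]
        intro hd
        rcases (hπ.mem d).1 (ho hd) with h2 | ⟨i, rfl⟩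
        · have : d ∈ o ∩ R := mem_inter.2 ⟨hd, h2⟩
          rw [hR] at this
          exact absurd this (by simp)
        · have := (off_testBit π o i).2 hd
          rw [h1] at this
          simp at this
      have hA2 := hA.con hπ ho hR
      exact (hc _ (off_lt _ _) hO0 hO).use hT hπ hE hA2 (hA2.toCB hπ) (hL.cons _) hW
    · rcases hd _ (off_lt _ _) hO with h1 | ⟨r', hr, h1⟩ | h1
      · obtain ⟨i, hi, t', ht, h2⟩ := hW.step inter_subset_right hlE hR
        have ht' : t' = t := by omega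
        subst ht'
        rw [mem_inter] at hi
        refine ⟨i, hi.1, t' + m * T + r, by omega, ?_⟩
        refine ih ((v, o) :: H) ((v, o ∩ R) :: E) (fl v i) ?_ ?_ ?_ h2
        · intro p hp
          rcases List.mem_cons.1 hp with rfl | hp
          · exact inter_subset_right
          · exact hE p hp
        · exact (hA.cons _).move hπ hi.2
        · exact (hL.item hπ ho h1).move hπ hi.2
      · obtain ⟨i, hi, t', ht, h2⟩ := (h1 π hπ H E v (t + 1) hE hA (hL.kill _) hW).step ho hl hne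
        exact ⟨i, hi, t', by omega, h2⟩
      · exact h1.use hT hπ hE (hA.cons _) (hA.toCB hπ).con (hL.cons _) hW

theorem soundG {R U : Finset ℕ} {T : ℕ} (hT : ∀ v, Win R T [] v) {A B L m r : ℕ}
    (hd : ∀ O < 16, B.testBit O = true →
      (∃ r' ≤ r, FS R U T A (L &&& mK.getD O 0) m r') ∨ JS R U T A (B &&& mC.getD O 0) L m r O) :
    GS R U T A B L m r := by
  intro π hπ H E v t hE hA hB hL hW
  refine Win.of_step fun o ho hl hne => ?_
  have hO : B.testBit (off π o) = true := by
    have := hB v o (fun _ _ => rfl) ho hl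
    rwa [rel_self, mul_zero, zero_add] at this
  rcases hd _ (off_lt _ _) hO with ⟨r', hr, h1⟩ | h1
  · obtain ⟨i, hi, t', ht, h2⟩ := (h1 π hπ H E v t hE hA (hL.kill _) hW).step ho hl hne
    exact ⟨i, hi, t', by omega, h2⟩
  · exact h1.use hT hπ hE (hA.cons _) hB.con (hL.cons _) hW

end Pool.Agent.Run7.h515.PW
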